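import Mathlib
import Pool.Agent.Y880.RS.G5b

set_option autoImplicit false

/-!
# Arithmetic progressions of arguments at which a shifted polynomial is prime, in dense sets

A relative Szemerédi theorem (`Pool/Agent/Y727/PSP`, helper727 and his team) is applied for a positive proportion
of the members of a family of weights: `ν(x + f(b + Q u))`, as a function of `u ≤ (log X) ^ B`, for `x ≤ X`; the
moments of the enveloping sieve `ν` over `x` are computed with the fundamental lemma and Selberg's weights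
(`Pool/Agent/Y880/RS`).
-/

open Polynomial Finset

namespace Pool.Agent.Results.MP_7169d5_nt.ShiftedPolynomialProgressions

/-- Let `f ∈ ℤ[x]` be nonconstant, `k` a number, `δ, ε > 0`. There are `B` and `c > 0` such that for all large
`X` and all `N` with `(log X) ^ B ≤ N` and `N ^ (4 deg f) ≤ X`, every set `T ⊆ [1, N]` with at least `δ N`
elements and every set `P` of at least `δ X / log X` primes `≤ X`: at least `c X` of the natural numbers
`b ≤ X` have the property that there is a progression `n, n + d, …, n + (k - 1) d` in `T`, with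
`1 ≤ d ≤ N ^ ε (log X) ^ B`, such that all the `k` numbers `f (n + j d) + b` are in `P`. -/
theorem result (f : ℤ[X]) (hf : 1 ≤ f.natDegree) (k : ℕ) (δ ε : ℝ) (hδ : 0 < δ) (hε : 0 < ε) :
    ∃ B : ℕ, ∃ c : ℝ, 0 < c ∧ ∃ X₀ : ℕ, ∀ X N : ℕ, X₀ ≤ X → Real.log X ^ B ≤ N →
      N ^ (4 * f.natDegree) ≤ X →
      ∀ T ⊆ Icc 1 N, δ * N ≤ T.card →
      ∀ P ⊆ Icc 1 X, (∀ p ∈ P, p.Prime) → δ * (X / Real.log X) ≤ P.card →
      ∃ G ⊆ Icc 1 X, c * X ≤ G.card ∧ ∀ b ∈ G, ∃ n d : ℕ, 1 ≤ d ∧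
        (d : ℝ) ≤ (N : ℝ) ^ ε * Real.log X ^ B ∧
        ∀ j < k, n + j * d ∈ T ∧ ∃ p ∈ P, (p : ℤ) = f.eval ((n + j * d : ℕ) : ℤ) + b := by
  obtain ⟨B, c, hc, X₀, h⟩ := Pool.Agent.Y880.RS.G5.g5 f (by omega) (max k 2) (le_max_right _ _) δ (min ε 1)
    hδ (lt_min hε one_pos) (min_le_right _ _)
  refine ⟨B, c, hc, max X₀ 3, fun X N hX hN hNX T hT hTc P hP hPp hPc => ?_⟩
  obtain ⟨G, hG1, hG2, hG3⟩ := h X N ((le_max_left _ _).trans hX) hN hNX T hT hTc P hP hPp hPc
  refine ⟨G, hG1, hG2, fun b hb => ?_⟩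
  obtain ⟨n, r, hr, hrb, hj⟩ := hG3 b hb
  refine ⟨n, r, hr, hrb.trans ?_, fun j hjk => hj j (hjk.trans_le (le_max_left _ _))⟩
  have hX3 : (3 : ℝ) ≤ X := by exact_mod_cast (le_max_right X₀ 3).trans hX
  have hl : 1 ≤ Real.log X := by
    rw [Real.le_log_iff_exp_le (by linarith)]
    have := Real.exp_one_lt_d9
    linarith
  have hN1 : (1 : ℝ) ≤ N := (one_le_pow₀ hl).trans hN
  apply mul_le_mul_of_nonneg_right _ (by positivity)
  exact Real.rpow_le_rpow_of_exponent_le hN1 (min_le_left _ _)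

end Pool.Agent.Results.MP_7169d5_nt.ShiftedPolynomialProgressions
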